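import Pool.Agent.H22.Udim2

set_option autoImplicit false

namespace Pool.Agent.Results.MP_529953_al.CharP

universe u

/-- A left-invariant finitely additive probability measure on all subsets of `G` exists. -/
def Amenable (G : Type) [Group G] : Prop :=
  ∃ m : Set G → ℝ, (∀ S, 0 ≤ m S) ∧ m Set.univ = 1 ∧
    (∀ S U, Disjoint S U → m (S ∪ U) = m S + m U) ∧
    ∀ (g : G) (S : Set G), m ((fun x => g * x) '' S) = m S

/-- Right uniform dimension: the supremum of the `n` such that `R` contains a direct sum of `n`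
nonzero right ideals. -/
noncomputable def udim (R : Type u) [Ring R] : ℕ∞ :=
  ⨆ (n : ℕ) (_ : ∃ I : Fin n → Submodule Rᵐᵒᵖ R, (∀ i, I i ≠ ⊥) ∧ iSupIndep I), (n : ℕ∞)

/-- Q2 fails for every prime `p` and every field `k` of characteristic `p`. -/
theorem result (p : ℕ) (hp : p.Prime) (k : Type u) [Field k] [CharP k p] :
    ∃ (G : Type) (_ : Group G), Amenable G ∧
      (∀ F : Subgroup G, Finite F → ¬ p ∣ Nat.card F → Nat.card F ≤ 1) ∧
      udim (MonoidAlgebra k G) = ⊤ := by
  haveI : Fact p.Prime := ⟨hp⟩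
  refine ⟨H22.Udim.G p, inferInstance, H22.Udim.amenG, fun F _ h => ?_, ?_⟩
  · rw [H22.Udim.triv F h]
    simp
  · unfold udim
    simp only [iSup_pos (H22.Udim.main k _)]
    exact ENat.iSup_natCast

end Pool.Agent.Results.MP_529953_al.CharP
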